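import Pool.Agent.W447.LT.Stm

/-!
Project LT: the odometer is level transitive.
-/

set_option autoImplicit false

namespace Pool.Agent.W45.LT

open Pool.Agent.W447.LT

lemma aux {X : Type} : ∀ (d : ℕ) (e : X ≃ Fin d) (_ : X), ∃ (n : ℕ) (e' : X ≃ Fin (n + 1)),
    ∀ x, ((e.trans (finRotate d)).trans e.symm) x = e'.symm (e' x + 1)
  | 0, e, x0 => (e x0).elim0
  | n + 1, e, _ => ⟨n, e, fun x => by simp⟩

open Fin.CommRing in
lemma cyc_facts {X : Type} (n : ℕ) (e : X ≃ Fin (n + 1)) (σ : X → X)
    (he : ∀ x, σ x = e.symm (e x + 1)) [DecidableEq X] :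
    (∀ y, σ^[n + 1] y = y) ∧
      (∀ x1 y, (∑ i ∈ Finset.range (n + 1), if σ^[i] y = x1 then 1 else 0) = 1) ∧
      (∀ x y, ∃ m, σ^[m] x = y) := by
  have hit : ∀ (m : ℕ) (x : X), σ^[m] x = e.symm (e x + (m : Fin (n + 1))) := by
    intro m x
    induction m with
    | zero => simp
    | succ m ih =>
      rw [Function.iterate_succ_apply', ih, he, Equiv.apply_symm_apply]
      push_cast
      rw [add_assoc]
  refine ⟨fun y => ?_, fun x1 y => ?_, fun x y => ?_⟩
  · rw [hit]
    simp
  · rw [Finset.sum_range]
    have h3 : ∀ i : Fin (n + 1), (if σ^[(i : ℕ)] y = x1 then 1 else 0) =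
        if i = e x1 - e y then 1 else 0 := by
      intro i
      have h4 : σ^[(i : ℕ)] y = x1 ↔ i = e x1 - e y := by
        rw [hit, Fin.cast_val_eq_self, Equiv.symm_apply_eq]
        constructor
        · intro h
          rw [← h, add_sub_cancel_left]
        · intro h
          rw [h, add_sub_cancel]
      by_cases h5 : i = e x1 - e y
      · rw [if_pos h5, if_pos (h4.2 h5)]
      · rw [if_neg h5, if_neg (fun h6 => h5 (h4.1 h6))]
    simp only [h3]
    simp
  · refine ⟨(e y - e x : Fin (n + 1)).val, ?_⟩
    rw [hit, Fin.cast_val_eq_self, add_sub_cancel, Equiv.symm_apply_apply]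

theorem odo : ODO := by
  intro Γ X _ _ R g x1 hp hs
  obtain ⟨n, e, he⟩ : ∃ (n : ℕ) (e : X ≃ Fin (n + 1)), ∀ x, cyc X x = e.symm (e x + 1) :=
    aux (Fintype.card X) (Fintype.equivFin X) x1
  obtain ⟨hper, hcnt, htr⟩ := cyc_facts n e (cyc X) he
  obtain ⟨P, hP⟩ : ∃ P : ℕ → W Γ, P = fun m => List.replicate m (g, true) := ⟨_, rfl⟩
  have hP0 : P 0 = [] := by rw [hP]; rfl
  have hPs : ∀ m, P (m + 1) = [(g, true)] ++ P m := by
    intro m
    rw [hP]
    rfl
  have hPa : ∀ (v : List X) (m : ℕ), R.act v (P (m + 1)) = R.act (R.act v (P m)) [(g, true)] := by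
    intro v m
    rw [hPs, act_append]
  have hPadd : ∀ (v : List X) (a b : ℕ), R.act v (P (a + b)) = R.act (R.act v (P b)) (P a) := by
    intro v a b
    rw [← act_append]
    congr 1
    rw [hP]
    exact (List.replicate_append_replicate).symm
  have hpow : ∀ (m : ℕ) (x : X) (u : List X), R.act (x :: u) (P m) =
      (cyc X)^[m] x :: R.act u (P (∑ i ∈ Finset.range m, if (cyc X)^[i] x = x1 then 1 else 0)) := by
    intro m x u
    induction m with
    | zero => simp [hP0, act_one]
    | succ m ih =>
      rw [hPa, ih, act_gen, hs, hp, Function.iterate_succ_apply', Finset.sum_range_succ]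
      congr 1
      split_ifs with h
      · rw [hPa]
      · rw [act_one, add_zero]
  have hmul : ∀ (k : ℕ) (y : X) (u : List X),
      R.act (y :: u) (P (k * (n + 1))) = y :: R.act u (P k) := by
    intro k y u
    induction k with
    | zero => simp [hP0, act_one]
    | succ k ih =>
      have h1 : (k + 1) * (n + 1) = (n + 1) + k * (n + 1) := by ring
      rw [h1, hPadd, ih, hpow, hper, hcnt, ← hPadd, add_comm]
  have key : ∀ (l : ℕ) (u v : List X), u.length = l → v.length = l → ∃ k, R.act u (P k) = v := by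
    intro l
    induction l with
    | zero =>
      intro u v hu hv
      refine ⟨0, ?_⟩
      rw [List.length_eq_zero_iff.1 hu, List.length_eq_zero_iff.1 hv]
      rfl
    | succ l ih =>
      intro u v hu hv
      cases u with
      | nil => simp at hu
      | cons x u =>
        cases v with
        | nil => simp at hv
        | cons y v =>
          rw [List.length_cons, Nat.add_right_cancel_iff] at hu hv
          obtain ⟨m, hm⟩ := htr x y
          have h1 := hpow m x u
          rw [hm] at h1
          obtain ⟨c, hc⟩ := ih (R.act u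
            (P (∑ i ∈ Finset.range m, if (cyc X)^[i] x = x1 then 1 else 0))) v
            (by rw [act_length, hu]) hv
          refine ⟨c * (n + 1) + m, ?_⟩
          rw [hPadd, h1, hmul, hc]
  intro u v huv
  obtain ⟨k, hk⟩ := key u.length u v rfl huv.symm
  exact ⟨P k, hk⟩

end Pool.Agent.W45.LT
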